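import Pool.Agent.Lib.MP_021685_agC.TDefs
import Pool.Agent.Lib.MP_802513_agC.Conv
import Pool.Agent.Lib.MP_021685_agX.One3

/-!
# Tate classes: the bundled terms and the unbundled ones
-/

set_option autoImplicit false
set_option linter.unusedSectionVars false

noncomputable section

open Module Pool.Agent.Lib.MP_802513_ag Pool.Agent.Lib.MP_802513_agS MP_802513_agK MP_802513_agC
open scoped TensorProduct

namespace MP_021685_agC

/-- The Galois data in the unbundled terms. -/
theorem Gal.old {A : AV} (G : Gal A) :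
    Pool.Agent.Lib.MP_021685_agV.IsGaloisLie A.L G.γ G.c where
  lie := G.lie
  hodge := G.hodge
  divisor := G.divisor
  semisimple := G.semisimple
  sen := fun τ => by
    obtain ⟨h, h1, h2⟩ := G.sen τ
    exact ⟨h, h1, h2⟩

/-- The Galois data in the bundled terms. -/
def Gal.new {A : AV} {γ : Submodule ℂ (HEnd A)} {c : HEnd A → ℂ}
    (h : Pool.Agent.Lib.MP_021685_agV.IsGaloisLie A.L γ c) : Gal A where
  γ := γ
  c := c
  lie := h.lie
  hodge := h.hodge
  divisor := h.divisor
  semisimple := h.semisimple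
  sen := fun τ => by
    obtain ⟨e, h1, h2⟩ := h.sen τ
    exact ⟨e, h1, h2⟩

theorem isHodgeComb_iff {A : AV} {n i : ℕ} {θ : CCl A n i} :
    Pool.Agent.Lib.MP_021685_agV.IsHodgeComb θ ↔ IsComb (hodge A) θ := Iff.rfl

theorem tateAreHodge_iff {A : AV} (G : Gal A) :
    Pool.Agent.Lib.MP_021685_agV.TateAreHodge G.γ G.c ↔ G.AllTate (hodge A) := Iff.rfl

theorem isComb_toFam {A : AV} {C : Fam A} {hC : IsStableFam A C} {n i : ℕ} {θ : CCl A n i} :
    Pool.Agent.Lib.MP_021685_agV.IsComb (toFam C hC) θ ↔ IsComb C θ := Iff.rfl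

theorem allTate_toFam {A : AV} (G : Gal A) {C : Fam A} {hC : IsStableFam A C} :
    Pool.Agent.Lib.MP_021685_agV.AllTate (toFam C hC) G.γ G.c ↔ G.AllTate C :=
  ⟨fun h n i θ hθ => h n i i le_rfl θ hθ, fun h n _ i _ θ hθ => h n i θ hθ⟩

/-- If a stable system contains all the Hodge classes then the Tate classes are combinations of its
classes if and only if they are combinations of Hodge classes. -/
theorem isComb_of_all {C : Sys} (hC : IsStable C) (hall : ∀ k, HasHodge C k) {A : AV} {n i : ℕ}
    {θ : CCl A n i} : IsComb (onPow C A) θ ↔ IsComb (hodge A) θ := by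
  have h1 : ∀ η, onPow C A n i η ↔ hodge A n i η := fun η =>
    ⟨fun h => (hC.fam A).hodge n i η h, fun h => hall i (A.pow n) i le_rfl η h⟩
  unfold IsComb
  simp only [h1]

theorem allTate_of_all {C : Sys} (hC : IsStable C) (hall : ∀ k, HasHodge C k) {A : AV}
    (G : Gal A) : G.AllTate (onPow C A) ↔ G.AllTate (hodge A) :=
  forall_congr' fun _ => forall_congr' fun _ => forall_congr' fun _ => imp_congr_right fun _ =>
    isComb_of_all hC hall

/-- If the stable system `C` does not contain the Hodge class `η` of degree `i` on `A`, then for all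
Galois data some Tate class of degree `i` on `A` is not a combination of classes of `C`. -/
theorem not_comb {C : Sys} (hC : IsStable C) {A : AV} {i : ℕ} {η : A.Cl i} (hη : A.IsHodge η)
    (hn : ¬ C A i η) (G : Gal A) : ∃ θ : CCl A 1 i, G.IsTate θ ∧ ¬ IsComb (onPow C A) θ := by
  obtain ⟨θ, h1, h2⟩ := MP_021685_agX.not_comb (toOld_stable hC) A.isAV hη
    (fun h => hn (mem_toOld.1 h)) G.old
  refine ⟨θ, h1, fun h => h2 ?_⟩
  have h3 := toOld_fam hC A
  show Pool.Agent.Lib.MP_021685_agV.IsComb
    (fun n i => toOld C hC (Fin n → A.V) (powLattice A.L n) i) θ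
  rw [h3]
  exact h

end MP_021685_agC
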